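import Pool.Agent.E8helper49.DD.Stm

/-! Piece S_COUNT of project DD (MP_bfbd14_co): the sign change count. -/

open Finset

namespace Pool.Agent.E8helper14.DD

open Pool.Agent.E8helper49.DD

/-- position of `v` in the triangle `lf v i` -/
def pos (v : Fin 12) (i : Fin 5) : Fin 3 :=
  if face (lf v i) 0 = v then 0 else if face (lf v i) 1 = v then 1 else 2

def fl (p : Fin 12 × Fin 5) : Fin 20 × Fin 3 := (lf p.1 p.2, pos p.1 p.2)

theorem fl_inj : Function.Injective fl := by decide +kernel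

theorem fl_bij : Function.Bijective fl :=
  (Fintype.bijective_iff_injective_and_card fl).2 ⟨fl_inj, by simp⟩

theorem fl_face : ∀ v i, face (lf v i) (pos v i) = v ∧ face (lf v i) (pos v i + 1) = nbr v i ∧
    face (lf v i) (pos v i + 2) = nbr v (i+1) := by decide +kernel

theorem cyc : ∀ b : Fin 5 → Bool, (∃ i, b i = true) → (∃ i, b i = false) →
    2 ≤ (Finset.univ.filter fun i : Fin 5 => b i ≠ b (i+1)).card := by decide +kernel

theorem nbr_ne : ∀ v i, nbr v i ≠ v := by decide +kernel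

theorem face_ne : ∀ T : Fin 20, face T 0 ≠ face T 1 ∧ face T 1 ≠ face T 2 ∧ face T 0 ≠ face T 2 := by
  decide +kernel

theorem out01 : ∃ i, nbr 0 i = 1 := by decide
theorem out02 : ∃ i, nbr 0 i = 2 := by decide
theorem out10 : ∃ i, nbr 1 i = 0 := by decide
theorem out12 : ∃ i, nbr 1 i = 2 := by decide
theorem out20 : ∃ i, nbr 2 i = 0 := by decide
theorem out21 : ∃ i, nbr 2 i = 1 := by decide

theorem t_COUNT : S_COUNT := by
  intro α _ g hg hin v hv
  classical
  let m : Fin 12 → Fin 12 → Fin 12 → ℕ := fun v a b =>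
    if (g a < g v ∧ g v < g b) ∨ (g v < g a ∧ g b < g v) then 1 else 0
  let c : Fin 12 → ℕ := fun v => ∑ i, m v (nbr v i) (nbr v (i+1))
  have hc : ∀ v, (Finset.univ.filter fun i : Fin 5 =>
    (g (nbr v i) < g v ∧ g v < g (nbr v (i+1))) ∨
      (g v < g (nbr v i) ∧ g (nbr v (i+1)) < g v)).card = c v := by
    intro v
    rw [Finset.card_filter]
  rw [hc]
  -- the number of middle vertices
  have hT : ∑ v, c v = 20 := by
    have h1 : ∑ v, c v = ∑ p : Fin 12 × Fin 5, m p.1 (nbr p.1 p.2) (nbr p.1 (p.2+1)) := by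
      rw [Fintype.sum_prod_type]
    have h2 : ∑ p : Fin 12 × Fin 5, m p.1 (nbr p.1 p.2) (nbr p.1 (p.2+1)) =
        ∑ q : Fin 20 × Fin 3, m (face q.1 q.2) (face q.1 (q.2+1)) (face q.1 (q.2+2)) := by
      refine Fintype.sum_bijective fl fl_bij _ _ ?_
      rintro ⟨v, i⟩
      obtain ⟨e1, e2, e3⟩ := fl_face v i
      simp only [fl]
      rw [e1, e2, e3]
    have h3 : ∀ T : Fin 20, ∑ r : Fin 3, m (face T r) (face T (r+1)) (face T (r+2)) = 1 := by
      intro T
      obtain ⟨n1, n2, n3⟩ := face_ne T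
      have g1 : g (face T 0) ≠ g (face T 1) := fun h => n1 (hg h)
      have g2 : g (face T 1) ≠ g (face T 2) := fun h => n2 (hg h)
      have g3 : g (face T 0) ≠ g (face T 2) := fun h => n3 (hg h)
      rw [Fin.sum_univ_three]
      have e1 : (0 + 1 : Fin 3) = 1 := by decide
      have e2 : (0 + 2 : Fin 3) = 2 := by decide
      have e3 : (1 + 1 : Fin 3) = 2 := by decide
      have e4 : (1 + 2 : Fin 3) = 0 := by decide
      have e5 : (2 + 1 : Fin 3) = 0 := by decide
      have e6 : (2 + 2 : Fin 3) = 1 := by decide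
      rw [e1, e2, e3, e4, e5, e6]
      simp only [m]
      generalize g (face T 0) = a at *
      generalize g (face T 1) = b at *
      generalize g (face T 2) = d at *
      rcases lt_or_gt_of_ne g1 with h1 | h1 <;> rcases lt_or_gt_of_ne g2 with h2 | h2 <;>
        rcases lt_or_gt_of_ne g3 with h3 | h3
      · simp [h1, h2, h3, h1.not_gt, h2.not_gt, h3.not_gt]
      · exact absurd (h1.trans h2) h3.not_gt
      · simp [h1, h2, h3, h1.not_gt, h2.not_gt, h3.not_gt]
      · simp [h1, h2, h3, h1.not_gt, h2.not_gt, h3.not_gt]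
      · simp [h1, h2, h3, h1.not_gt, h2.not_gt, h3.not_gt]
      · simp [h1, h2, h3, h1.not_gt, h2.not_gt, h3.not_gt]
      · exact absurd (h2.trans h1) h3.not_gt
      · simp [h1, h2, h3, h1.not_gt, h2.not_gt, h3.not_gt]
    rw [h1, h2, Fintype.sum_prod_type]
    simp only [h3]
    simp
  -- at least two sign changes
  have h2 : ∀ v, (∃ i, g (nbr v i) < g v) → (∃ i, g v < g (nbr v i)) → 2 ≤ c v := by
    rintro v ⟨i, hi⟩ ⟨j, hj⟩
    have hne : ∀ i, g v ≠ g (nbr v i) := fun i h => nbr_ne v i (hg h.symm)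
    have := cyc (fun i => decide (g v < g (nbr v i))) ⟨j, by simpa using hj⟩
      ⟨i, by simpa using hi.le⟩
    rw [Finset.card_filter] at this
    refine this.trans (le_of_eq ?_)
    refine Finset.sum_congr rfl fun i _ => ?_
    simp only [m]
    rcases lt_or_gt_of_ne (hne i) with h1 | h1 <;> rcases lt_or_gt_of_ne (hne (i+1)) with h2 | h2 <;>
      simp [h1, h2, h1.not_gt, h2.not_gt]
  have hin' : ∀ v, 3 ≤ v → 2 ≤ c v := fun v hv => h2 v (hin v hv).1 (hin v hv).2
  have hout : 2 ≤ c 0 ∨ 2 ≤ c 1 ∨ 2 ≤ c 2 := by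
    have g1 : g 0 ≠ g 1 := fun h => absurd (hg h) (by decide)
    have g2 : g 1 ≠ g 2 := fun h => absurd (hg h) (by decide)
    have g3 : g 0 ≠ g 2 := fun h => absurd (hg h) (by decide)
    obtain ⟨i01, o01⟩ := out01
    obtain ⟨i02, o02⟩ := out02
    obtain ⟨i10, o10⟩ := out10
    obtain ⟨i12, o12⟩ := out12
    obtain ⟨i20, o20⟩ := out20
    obtain ⟨i21, o21⟩ := out21
    rcases lt_or_gt_of_ne g1 with h1 | h1 <;> rcases lt_or_gt_of_ne g2 with h2' | h2' <;>
        rcases lt_or_gt_of_ne g3 with h3 | h3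
    · exact Or.inr (Or.inl (h2 1 ⟨i10, by rw [o10]; exact h1⟩ ⟨i12, by rw [o12]; exact h2'⟩))
    · exact absurd (h1.trans h2') h3.not_gt
    · exact Or.inr (Or.inr (h2 2 ⟨i20, by rw [o20]; exact h3⟩ ⟨i21, by rw [o21]; exact h2'⟩))
    · exact Or.inl (h2 0 ⟨i02, by rw [o02]; exact h3⟩ ⟨i01, by rw [o01]; exact h1⟩)
    · exact Or.inl (h2 0 ⟨i01, by rw [o01]; exact h1⟩ ⟨i02, by rw [o02]; exact h3⟩)
    · exact Or.inr (Or.inr (h2 2 ⟨i21, by rw [o21]; exact h2'⟩ ⟨i20, by rw [o20]; exact h3⟩))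
    · exact absurd (h2'.trans h1) h3.not_gt
    · exact Or.inr (Or.inl (h2 1 ⟨i12, by rw [o12]; exact h2'⟩ ⟨i10, by rw [o10]; exact h1⟩))
  have l3 := hin' 3 (by decide)
  have l4 := hin' 4 (by decide)
  have l5 := hin' 5 (by decide)
  have l6 := hin' 6 (by decide)
  have l7 := hin' 7 (by decide)
  have l8 := hin' 8 (by decide)
  have l9 := hin' 9 (by decide)
  have l10 := hin' 10 (by decide)
  have l11 := hin' 11 (by decide)
  have hs : ∑ v, c v = c 0 + c 1 + c 2 + c 3 + c 4 + c 5 + c 6 + c 7 + c 8 + c 9 + c 10 + c 11 := by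
    simp only [Fin.sum_univ_succ, Fin.sum_univ_zero]
    simp only [Fin.isValue, Fin.succ_zero_eq_one, Fin.succ_one_eq_two, add_zero]
    have : ∀ a b d e f h i j k l m n : ℕ, a + (b + (d + (e + (f + (h + (i + (j + (k + (l + (m + n)))))))))) =
      a + b + d + e + f + h + i + j + k + l + m + n := by intros; omega
    exact this _ _ _ _ _ _ _ _ _ _ _ _
  rw [hs] at hT
  have key : c v ≤ 2 := by
    have hv' : v = 3 ∨ v = 4 ∨ v = 5 ∨ v = 6 ∨ v = 7 ∨ v = 8 ∨ v = 9 ∨ v = 10 ∨ v = 11 := by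
      revert hv; revert v; decide
    rcases hv' with h | h | h | h | h | h | h | h | h <;> subst h <;> omega
  exact le_antisymm key (hin' v hv)

end Pool.Agent.E8helper14.DD
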