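import Pool.Agent.E8helper49.DD.Stm

/-! Pieces S_DISJ and S_TOP of project DD (MP_bfbd14_co). -/

open Finset

namespace Pool.Agent.E8helper14.DD

open Pool.Agent.E8helper49.DD

theorem vol_nonneg {x y z : Fin 12 → ℝ} (hc : Convex' x y z) (T : Fin 20) (hT : T ≠ 0)
    (l : Fin 12) : 0 ≤ vol x y z (face T 0) (face T 1) (face T 2) l := by
  by_cases h : ∀ r, face T r ≠ l
  · exact (hc T hT l h).le
  · push Not at h
    obtain ⟨r, rfl⟩ := h
    refine le_of_eq ?_
    fin_cases r
    · simp only [vol]
      simp
    · simp only [vol]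
      simp
      ring
    · simp only [vol]
      simp

theorem faces_ne : ∀ T T' : Fin 20, T ≠ T' → ∃ r, ∀ r', face T' r' ≠ face T r := by
  decide +kernel

/-- the combination of the values of `vol` -/
theorem comb {x y z : Fin 12 → ℝ} {a b c a' b' c' : Fin 12} {X Y : ℝ} :
    ((x c - x b) * (Y - y b) - (X - x b) * (y c - y b)) * vol x y z a' b' c' a +
    ((x a - x c) * (Y - y c) - (X - x c) * (y a - y c)) * vol x y z a' b' c' b +
    ((x b - x a) * (Y - y a) - (X - x a) * (y b - y a)) * vol x y z a' b' c' c =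
    ar x y a' b' c' * (((x c - x b) * (Y - y b) - (X - x b) * (y c - y b)) * z a +
      ((x a - x c) * (Y - y c) - (X - x c) * (y a - y c)) * z b +
      ((x b - x a) * (Y - y a) - (X - x a) * (y b - y a)) * z c) -
    ar x y a b c * (((x c' - x b') * (Y - y b') - (X - x b') * (y c' - y b')) * z a' +
      ((x a' - x c') * (Y - y c') - (X - x c') * (y a' - y c')) * z b' +
      ((x b' - x a') * (Y - y a') - (X - x a') * (y b' - y a')) * z c') := by
  simp only [vol, ar]
  ring

theorem comb_pos {x y z : Fin 12 → ℝ} (hc : Convex' x y z) {T T' : Fin 20} (hT' : T' ≠ 0)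
    (hne : T ≠ T') {X Y : ℝ} (h : InTri x y T X Y) :
    0 < ((x (face T 2) - x (face T 1)) * (Y - y (face T 1)) -
        (X - x (face T 1)) * (y (face T 2) - y (face T 1))) *
          vol x y z (face T' 0) (face T' 1) (face T' 2) (face T 0) +
      ((x (face T 0) - x (face T 2)) * (Y - y (face T 2)) -
        (X - x (face T 2)) * (y (face T 0) - y (face T 2))) *
          vol x y z (face T' 0) (face T' 1) (face T' 2) (face T 1) +
      ((x (face T 1) - x (face T 0)) * (Y - y (face T 0)) -
        (X - x (face T 0)) * (y (face T 1) - y (face T 0))) *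
          vol x y z (face T' 0) (face T' 1) (face T' 2) (face T 2) := by
  have h0 := h 0
  have h1 := h 1
  have h2 := h 2
  have e1 : (0 + 1 : Fin 3) = 1 := by decide
  have e3 : (1 + 1 : Fin 3) = 2 := by decide
  have e5 : (2 + 1 : Fin 3) = 0 := by decide
  rw [e1] at h0
  rw [e3] at h1
  rw [e5] at h2
  have v0 := vol_nonneg hc T' hT' (face T 0)
  have v1 := vol_nonneg hc T' hT' (face T 1)
  have v2 := vol_nonneg hc T' hT' (face T 2)
  obtain ⟨r, hr⟩ := faces_ne T T' hne
  have hv := hc T' hT' _ hr
  fin_cases r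
  · have hv' : 0 < vol x y z (face T' 0) (face T' 1) (face T' 2) (face T 0) := hv
    have := mul_pos h1 hv'
    have := mul_nonneg h2.le v1
    have := mul_nonneg h0.le v2
    linarith
  · have hv' : 0 < vol x y z (face T' 0) (face T' 1) (face T' 2) (face T 1) := hv
    have := mul_nonneg h1.le v0
    have := mul_pos h2 hv'
    have := mul_nonneg h0.le v2
    linarith
  · have hv' : 0 < vol x y z (face T' 0) (face T' 1) (face T' 2) (face T 2) := hv
    have := mul_nonneg h1.le v0
    have := mul_nonneg h2.le v1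
    have := mul_pos h0 hv'
    linarith

theorem t_DISJ : S_DISJ := by
  intro x y z _ hc T T' hT hT' hne X Y h h'
  have p := comb_pos hc hT' hne h
  have p' := comb_pos hc hT (Ne.symm hne) h'
  rw [comb] at p p'
  linarith

theorem lf_ne : ∀ v : Fin 12, 3 ≤ v → lf v 0 ≠ 0 := by decide +kernel

theorem lf_mem : ∀ v : Fin 12, ∃ r, face (lf v 0) r = v := by decide +kernel

theorem lf_nbr2 : ∀ v : Fin 12, ∀ r, face (lf v 0) r ≠ nbr v 2 := by decide +kernel

theorem vol_affine (x y z : Fin 12 → ℝ) (a b c l v : Fin 12) :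
    vol x y z a b c l - vol x y z a b c v =
      ((y b - y a) * (z c - z a) - (z b - z a) * (y c - y a)) * (x l - x v) +
      ((z b - z a) * (x c - x a) - (x b - x a) * (z c - z a)) * (y l - y v) +
      ar x y a b c * (z l - z v) := by
  simp only [vol, ar]
  ring

theorem t_TOP : S_TOP := by
  intro w x y z hw _ hp hx hy hz hc
  by_contra hcon
  push Not at hcon
  obtain ⟨v0, hv0, hz0⟩ := hcon
  -- the highest inner vertex
  obtain ⟨v, hvm, hmax⟩ := Finset.exists_max_image (Finset.univ.filter fun v : Fin 12 => 3 ≤ v) z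
    ⟨v0, by simpa using hv0⟩
  have hv : 3 ≤ v := by simpa using hvm
  have hzv : 0 ≤ z v := hz0.trans (hmax v0 (by simpa using hv0))
  have hall : ∀ u, z u ≤ z v := by
    intro u
    by_cases hu : 3 ≤ u
    · exact hmax u (by simpa using hu)
    · have hu' : u = 0 ∨ u = 1 ∨ u = 2 := by
        revert hu; revert u; decide
      rcases hu' with h | h | h <;> subst h
      · rw [hz.1]; exact hzv
      · rw [hz.2.1]; exact hzv
      · rw [hz.2.2]; exact hzv
  set T := lf v 0 with hTd
  have hT : T ≠ 0 := lf_ne v hv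
  have hvz : vol x y z (face T 0) (face T 1) (face T 2) v = 0 := by
    obtain ⟨r, hr⟩ := lf_mem v
    rw [← hTd] at hr
    rw [← hr]
    fin_cases r
    · simp only [vol]
      simp
    · simp only [vol]
      simp
      ring
    · simp only [vol]
      simp
  have hA : 0 < ar x y (face T 0) (face T 1) (face T 2) := hp T hT
  have hsum : ∑ i, w v (nbr v i) * vol x y z (face T 0) (face T 1) (face T 2) (nbr v i) =
      ar x y (face T 0) (face T 1) (face T 2) * ∑ i, w v (nbr v i) * (z (nbr v i) - z v) := by
    have h1 := hx v hv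
    have h2 := hy v hv
    have h3 : ∀ i, w v (nbr v i) * vol x y z (face T 0) (face T 1) (face T 2) (nbr v i) =
        ((y (face T 1) - y (face T 0)) * (z (face T 2) - z (face T 0)) -
          (z (face T 1) - z (face T 0)) * (y (face T 2) - y (face T 0))) *
            (w v (nbr v i) * (x (nbr v i) - x v)) +
        ((z (face T 1) - z (face T 0)) * (x (face T 2) - x (face T 0)) -
          (x (face T 1) - x (face T 0)) * (z (face T 2) - z (face T 0))) *
            (w v (nbr v i) * (y (nbr v i) - y v)) +
        ar x y (face T 0) (face T 1) (face T 2) * (w v (nbr v i) * (z (nbr v i) - z v)) := by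
      intro i
      have := vol_affine x y z (face T 0) (face T 1) (face T 2) (nbr v i) v
      rw [hvz, sub_zero] at this
      rw [this]
      ring
    simp only [h3]
    rw [Finset.sum_add_distrib, Finset.sum_add_distrib, ← Finset.mul_sum, ← Finset.mul_sum,
      ← Finset.mul_sum, h1, h2]
    ring
  have hpos : 0 < ∑ i, w v (nbr v i) * vol x y z (face T 0) (face T 1) (face T 2) (nbr v i) := by
    refine Finset.sum_pos' (fun i _ => mul_nonneg (hw.2 v i (Or.inl hv)).le
      (vol_nonneg hc T hT _)) ⟨2, Finset.mem_univ _, ?_⟩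
    exact mul_pos (hw.2 v 2 (Or.inl hv)) (hc T hT _ (lf_nbr2 v))
  have hneg : ∑ i, w v (nbr v i) * (z (nbr v i) - z v) ≤ 0 :=
    Finset.sum_nonpos fun i _ => mul_nonpos_of_nonneg_of_nonpos (hw.2 v i (Or.inl hv)).le
      (by linarith [hall (nbr v i)])
  rw [hsum] at hpos
  have := mul_nonpos_of_nonneg_of_nonpos hA.le hneg
  linarith

end Pool.Agent.E8helper14.DD
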